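import Pool.Agent.H37.CNU.Stmts

/-!
# Denominators of conductors, board `cnu`, row UNP
-/

set_option autoImplicit false

namespace Pool.CND

open Finset Matrix

private theorem unp_emb (p : ℕ) (k F : Type) [Field k] [IsAlgClosed k] [Field F] (f q : ℕ)
    (hp : p.Prime) (hcp : CharP k p) (hf : 1 ≤ f) (hq : q = p ^ f) (hF : Nat.card F = q ^ 2) :
    Nonempty (F →+* k) := by
  have hq2 : 2 ≤ q := by
    rw [hq]
    exact le_trans hp.two_le (Nat.le_self_pow (by omega) p)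
  have hF0 : Nat.card F ≠ 0 := by
    rw [hF]
    positivity
  haveI : Finite F := Nat.finite_of_card_ne_zero hF0
  haveI : Fintype F := Fintype.ofFinite F
  haveI : Fact p.Prime := ⟨hp⟩
  obtain ⟨r, hr⟩ := CharP.exists F
  obtain ⟨n, hrp, hn⟩ := FiniteField.card F r
  have hrp2 : r = p := by
    rw [← Nat.card_eq_fintype_card, hF, hq, ← pow_mul] at hn
    have h1 : r ∣ p ^ (f * 2) := by
      rw [hn]
      exact dvd_pow_self r n.ne_zero
    exact (Nat.prime_dvd_prime_iff_eq hrp hp).1 (hrp.dvd_of_dvd_pow h1)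
  haveI : CharP F p := by rw [← hrp2]; exact hr
  letI : Algebra (ZMod p) F := ZMod.algebra F p
  letI : Algebra (ZMod p) k := ZMod.algebra k p
  exact ⟨(IsAlgClosed.lift (R := ZMod p) (S := F) (M := k)).toRingHom⟩

theorem unp_thm (hUNO : S_UNO) (hPUN : S_PUN) : S_UNP := by
  intro p k F _ _ _ f q σ hp hcp hf hq hF hσ
  have hq2 : 2 ≤ q := by
    rw [hq]
    exact le_trans hp.two_le (Nat.le_self_pow (by omega) p)
  obtain ⟨φ⟩ := unp_emb p k F f q hp hcp hf hq hF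
  letI : Algebra F k := φ.toAlgebra
  have hF0 : Nat.card F ≠ 0 := by
    rw [hF]
    positivity
  haveI : Finite F := Nat.finite_of_card_ne_zero hF0
  haveI : Finite (Matrix.SpecialLinearGroup (Fin 3) F) :=
    inferInstanceAs (Finite {A : Matrix (Fin 3) (Fin 3) F // A.det = 1})
  haveI : Finite (SU3 σ) := inferInstance
  have h := hPUN p k (SU3 σ) _ hp hcp (hUNO p k F f q σ hp hcp hf hq hF hσ)
  obtain ⟨t, rfl⟩ : ∃ t, q = t + 2 := ⟨q - 2, by omega⟩
  have e1 : t + 2 - 1 = t + 1 := by omega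
  have e2 : (t + 2) ^ 2 - (t + 2) + 1 = (t + 2) * (t + 1) + 1 := by
    have : (t + 2) ^ 2 = (t + 2) * (t + 1) + (t + 2) := by ring
    omega
  rw [e1] at h ⊢
  rw [e2] at h
  have hcop : Nat.Coprime ((t + 2) * (t + 1) + 1) ((t + 2) * (t + 1)) := by
    rw [Nat.coprime_self_add_left] <;> simp
  have hden : ((((t + 2) * (t + 1) + 1 : ℕ) : ℚ) / ((t + 2) * (t + 1) : ℕ)).den =
      (t + 2) * (t + 1) := by
    have hne : (((t + 2) * (t + 1) : ℕ) : ℤ) ≠ 0 := by positivity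
    have h1 := Rat.den_div_eq_of_coprime (a := (((t + 2) * (t + 1) + 1 : ℕ) : ℤ))
      (b := (((t + 2) * (t + 1) : ℕ) : ℤ)) (by positivity) (by rw [Int.natAbs_natCast, Int.natAbs_natCast]; exact hcop)
    have h2 : ((((((t + 2) * (t + 1) + 1 : ℕ) : ℤ) : ℚ) / ((((t + 2) * (t + 1) : ℕ) : ℤ) : ℚ)).den : ℤ)
      = (((t + 2) * (t + 1) : ℕ) : ℤ) := h1
    have h3 : (((((t + 2) * (t + 1) + 1 : ℕ) : ℤ) : ℚ) / ((((t + 2) * (t + 1) : ℕ) : ℤ) : ℚ)) =
      ((((t + 2) * (t + 1) + 1 : ℕ) : ℚ) / ((t + 2) * (t + 1) : ℕ)) := by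
      rw [Int.cast_natCast, Int.cast_natCast]
    rw [h3] at h2
    exact_mod_cast h2
  have h5 : ((((t + 2) * (t + 1) + 1 : ℕ) : ℚ) / ((t + 2) * (t + 1) : ℕ)).den ∣
      NG k (SU3 σ) := h
  rw [hden] at h5
  exact h5

end Pool.CND
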